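import Pool.Agent.Helper96.AD.A1
import Pool.Agent.Helper22.AE.E0
import Pool.Agent.Helper22.AE.C1

/-!
# AD-A6: continuity, the trivial bound and the mean of `Yq`

PROOF of `Yq_mean` (copy of `AE.mean_sq`). By `gph_Hw` the term of the tuple `k` is `vt k · ee (∑_t -(R nk lform))` with
`‖vt k‖ ≤ 1`. Expand `‖co m‖²` as a double sum over `k, k'` in the fibre of `m`; the expectation of the pair is
`exp(-π R² ∑_l ‖c_l‖² ‖M_l‖²) ∈ [0, 1]` (`gm_char`). Extend `k'` to all tuples (all terms are nonnegative), and use: at most `N` tuples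
`k'` with all moments `≤ η`, and `≤ exp (-(π/4) R² η²)` for the others.
-/

open MeasureTheory Real Set Filter Topology

set_option autoImplicit false

namespace Pool.Agent.Helper96.AD

open Pool.Agent.Helper22.AE Pool.Agent.Helper60.AD
open Pool.Agent.Helper92.GC (dt sqa)

theorem Yq_cont {L J : ℕ} {H₀ : ℝ → ℝ} (h0 : ContDiff ℝ 2 H₀) (A : Fin J → Finset (ℤ × ℤ)) (b : Fin J → ℝ → ℤ × ℤ → ℂ)
    (hb : ∀ t k, Continuous (fun α => b t α k)) :
    Continuous (fun q : (ℝ × ℝ) × ((Fin L → ℝ) × (Fin L → ℝ)) => Yq (Hw H₀ q.2) A (fun t => b t q.1.2) q.1.1 q.1.2) := by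
  unfold Yq co
  refine continuous_finsetSum _ (fun m _ => ?_)
  refine (continuous_norm.comp ?_).pow 2
  refine continuous_finsetSum _ (fun k _ => ?_)
  refine continuous_finsetProd _ (fun t _ => ?_)
  refine ((hb t (k t)).comp (continuous_snd.comp continuous_fst)).mul (ee_cont.comp ?_)
  have e : ∀ q : (ℝ × ℝ) × ((Fin L → ℝ) × (Fin L → ℝ)), gph (Hw H₀ q.2) (k t) q.1.2 = gph H₀ (k t) q.1.2 + lform (k t) q.1.2 q.2 :=
    fun q => gph_Hw h0 _ _ _
  simp only [e]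
  have hg : Continuous (gph H₀ (k t)) :=
    continuous_iff_continuousAt.2 (fun α => (gph_hasDerivAt h0 (k t) α).continuousAt)
  have h1 : Continuous (fun q : (ℝ × ℝ) × ((Fin L → ℝ) × (Fin L → ℝ)) => gph H₀ (k t) q.1.2) :=
    hg.comp (continuous_snd.comp continuous_fst)
  have h2 : Continuous (fun q : (ℝ × ℝ) × ((Fin L → ℝ) × (Fin L → ℝ)) => lform (k t) q.1.2 q.2) :=
    (lform_cont (k t)).comp ((continuous_snd.comp continuous_fst).prodMk continuous_snd)
  exact ((continuous_fst.comp continuous_fst).mul (continuous_const.mul (h1.add h2))).neg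

theorem Yq_le {J : ℕ} (h : ℝ → ℝ) (A : Fin J → Finset (ℤ × ℤ)) (b : Fin J → ℤ × ℤ → ℂ) (hb : ∀ t, ∀ k ∈ A t, ‖b t k‖ ≤ 1) (R α : ℝ) :
    0 ≤ Yq h A b R α ∧ Yq h A b R α ≤ (∏ t, ((A t).card : ℝ)) ^ 2 := by
  classical
  refine ⟨Finset.sum_nonneg (fun m _ => sq_nonneg _), ?_⟩
  unfold Yq
  refine (Finset.sum_sq_le_sq_sum_of_nonneg (fun m _ => norm_nonneg _)).trans ?_
  refine pow_le_pow_left₀ (Finset.sum_nonneg (fun m _ => norm_nonneg _)) ?_ 2
  have h1 : ∀ m ∈ fq A, ‖co h A b R α m‖ ≤ ∑ _k ∈ (Fintype.piFinset A).filter (fun k => ∑ t, k t = m), (1 : ℝ) := by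
    intro m _
    unfold co
    refine (norm_sum_le _ _).trans (Finset.sum_le_sum (fun k hk => ?_))
    rw [norm_prod]
    refine Finset.prod_le_one (fun t _ => norm_nonneg _) (fun t _ => ?_)
    rw [norm_mul, ee_norm, mul_one]
    exact hb t (k t) (Fintype.mem_piFinset.1 (Finset.mem_filter.1 hk).1 t)
  refine (Finset.sum_le_sum h1).trans (le_of_eq ?_)
  rw [Finset.sum_fiberwise_of_maps_to (s := Fintype.piFinset A) (t := fq A) (g := fun k => ∑ t, k t)
    (fun k hk => Finset.mem_image_of_mem _ hk)]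
  rw [Finset.sum_const, nsmul_eq_mul, mul_one, Fintype.card_piFinset]
  push_cast
  rfl

/-- the difference of the phases of two tuples -/
private theorem phase_diff {L J : ℕ} (k k' : Fin J → ℤ × ℤ) (R α : ℝ)
    (w : (Fin L → ℝ) × (Fin L → ℝ)) :
    (∑ i, -(R * nk (k i) * lform (k i) α w)) + -(∑ i, -(R * nk (k' i) * lform (k' i) α w)) =
      ∑ l : Fin L, (w.1 l * (-R * (cl l α * Mom k k' l).re) +
        w.2 l * (-R * (cl l α * Mom k k' l).im)) := by
  have hM : ∀ l : ℕ, cl l α * Mom k k' l =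
      ∑ i, (((nk (k i) : ℝ) : ℂ) * (cl l α * zk (k i) ^ l) -
        ((nk (k' i) : ℝ) : ℂ) * (cl l α * zk (k' i) ^ l)) := by
    intro l
    unfold Mom
    rw [Finset.mul_sum]
    refine Finset.sum_congr rfl (fun i _ => ?_)
    ring
  have hre : ∀ l : ℕ, (cl l α * Mom k k' l).re =
      ∑ i, (nk (k i) * (cl l α * zk (k i) ^ l).re - nk (k' i) * (cl l α * zk (k' i) ^ l).re) := by
    intro l
    rw [hM l, Complex.re_sum]
    refine Finset.sum_congr rfl (fun i _ => ?_)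
    rw [Complex.sub_re, Complex.re_ofReal_mul, Complex.re_ofReal_mul]
  have him : ∀ l : ℕ, (cl l α * Mom k k' l).im =
      ∑ i, (nk (k i) * (cl l α * zk (k i) ^ l).im - nk (k' i) * (cl l α * zk (k' i) ^ l).im) := by
    intro l
    rw [hM l, Complex.im_sum]
    refine Finset.sum_congr rfl (fun i _ => ?_)
    rw [Complex.sub_im, Complex.im_ofReal_mul, Complex.im_ofReal_mul]
  have h1 : ∀ l : Fin L, w.1 l * (-R * (cl l α * Mom k k' l).re) +
        w.2 l * (-R * (cl l α * Mom k k' l).im) =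
      ∑ i, (-R * nk (k i) * (w.1 l * (cl l α * zk (k i) ^ (l : ℕ)).re +
          w.2 l * (cl l α * zk (k i) ^ (l : ℕ)).im) +
        R * nk (k' i) * (w.1 l * (cl l α * zk (k' i) ^ (l : ℕ)).re +
          w.2 l * (cl l α * zk (k' i) ^ (l : ℕ)).im)) := by
    intro l
    rw [hre, him, Finset.mul_sum, Finset.mul_sum, Finset.mul_sum, Finset.mul_sum,
      ← Finset.sum_add_distrib]
    refine Finset.sum_congr rfl (fun i _ => ?_)
    ring
  rw [Finset.sum_congr rfl (fun l _ => h1 l), Finset.sum_comm, ← Finset.sum_neg_distrib,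
    ← Finset.sum_add_distrib]
  refine Finset.sum_congr rfl (fun i _ => ?_)
  unfold lform
  rw [neg_neg, Finset.mul_sum, Finset.mul_sum, ← Finset.sum_neg_distrib, ← Finset.sum_add_distrib]
  refine Finset.sum_congr rfl (fun l _ => ?_)
  ring

/-- the part of the term of the tuple `k` that does not depend on the coefficients -/
private noncomputable def vt {J : ℕ} (H₀ : ℝ → ℝ) (b : Fin J → ℤ × ℤ → ℂ) (R α : ℝ) (k : Fin J → ℤ × ℤ) : ℂ :=
  (∏ t, b t (k t)) * ee (∑ t, -(R * (nk (k t) * gph H₀ (k t) α)))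

private theorem vt_le {J : ℕ} (H₀ : ℝ → ℝ) (A : Fin J → Finset (ℤ × ℤ)) (b : Fin J → ℤ × ℤ → ℂ)
    (hb : ∀ t, ∀ k ∈ A t, ‖b t k‖ ≤ 1) (R α : ℝ) (k : Fin J → ℤ × ℤ) (hk : k ∈ Fintype.piFinset A) : ‖vt H₀ b R α k‖ ≤ 1 := by
  unfold vt
  rw [norm_mul, ee_norm, mul_one, norm_prod]
  exact Finset.prod_le_one (fun t _ => norm_nonneg _) (fun t _ => hb t (k t) (Fintype.mem_piFinset.1 hk t))

private theorem term_eq {L J : ℕ} {H₀ : ℝ → ℝ} (h0 : ContDiff ℝ 2 H₀) (b : Fin J → ℤ × ℤ → ℂ) (R α : ℝ) (k : Fin J → ℤ × ℤ)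
    (w : (Fin L → ℝ) × (Fin L → ℝ)) :
    ∏ t, (b t (k t) * ee (-(R * (nk (k t) * gph (Hw H₀ w) (k t) α)))) =
      vt H₀ b R α k * ee (∑ t, -(R * nk (k t) * lform (k t) α w)) := by
  unfold vt
  rw [Finset.prod_mul_distrib, mul_assoc, ← ee_add, ← Finset.sum_add_distrib, ee_fsum]
  congr 1
  refine Finset.prod_congr rfl (fun t _ => ?_)
  rw [gph_Hw h0]
  congr 1
  ring

/-- `Yq` as a double sum -/
private theorem sq_expand {L J : ℕ} {H₀ : ℝ → ℝ} (h0 : ContDiff ℝ 2 H₀) (A : Fin J → Finset (ℤ × ℤ)) (b : Fin J → ℤ × ℤ → ℂ) (R α : ℝ)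
    (w : (Fin L → ℝ) × (Fin L → ℝ)) :
    ((Yq (Hw H₀ w) A b R α : ℝ) : ℂ) =
      ∑ m ∈ fq A, ∑ k ∈ (Fintype.piFinset A).filter (fun k => ∑ t, k t = m),
        ∑ k' ∈ (Fintype.piFinset A).filter (fun k => ∑ t, k t = m),
        (vt H₀ b R α k * (starRingEnd ℂ) (vt H₀ b R α k')) *
          ee (∑ l : Fin L, (w.1 l * (-R * (cl l α * Mom k k' l).re) +
            w.2 l * (-R * (cl l α * Mom k k' l).im))) := by
  classical
  unfold Yq
  rw [Complex.ofReal_sum]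
  refine Finset.sum_congr rfl (fun m _ => ?_)
  have h2 : ((‖co (Hw H₀ w) A b R α m‖ ^ 2 : ℝ) : ℂ) =
      co (Hw H₀ w) A b R α m * (starRingEnd ℂ) (co (Hw H₀ w) A b R α m) := by
    rw [Complex.mul_conj, Complex.normSq_eq_norm_sq]
  rw [h2]
  unfold co
  rw [map_sum, Finset.sum_mul_sum]
  refine Finset.sum_congr rfl (fun k _ => Finset.sum_congr rfl (fun k' _ => ?_))
  rw [term_eq h0, term_eq h0, map_mul, ← ee_neg, ← phase_diff k k' R α w, ee_add]
  ring

private theorem int_ee {L : ℕ} (c : ℂ) (x y : Fin L → ℝ) :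
    Integrable (fun w : (Fin L → ℝ) × (Fin L → ℝ) =>
      c * ee (∑ l : Fin L, (w.1 l * x l + w.2 l * y l))) (gm L) := by
  have hc : Continuous (fun w : (Fin L → ℝ) × (Fin L → ℝ) =>
      c * ee (∑ l : Fin L, (w.1 l * x l + w.2 l * y l))) := by
    refine continuous_const.mul (ee_cont.comp ?_)
    fun_prop
  refine Integrable.of_bound hc.aestronglyMeasurable ‖c‖ (Filter.Eventually.of_forall fun w => ?_)
  rw [norm_mul, ee_norm, mul_one]

theorem Yq_mean {L J : ℕ} (hJ : 2 * J ≤ L) {H₀ : ℝ → ℝ} (h0 : ContDiff ℝ 2 H₀) (A : Fin J → Finset (ℤ × ℤ)) (b : Fin J → ℤ × ℤ → ℂ)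
    (hb : ∀ t, ∀ k ∈ A t, ‖b t k‖ ≤ 1) {R α η N : ℝ} (hR : 0 < R) (hα : 1 / 2 ≤ |cos α|) (hη : 0 < η)
    (hN : ∀ k ∈ Fintype.piFinset A,
      (((Fintype.piFinset A).filter (fun k' => ∀ l < 2 * J, ‖Mom k k' l‖ ≤ η)).card : ℝ) ≤ N) :
    ∫ w : (Fin L → ℝ) × (Fin L → ℝ), Yq (Hw H₀ w) A b R α ∂(gm L) ≤
      (∏ i, ((A i).card : ℝ)) * N + (∏ i, ((A i).card : ℝ)) ^ 2 * exp (-(π / 4) * R ^ 2 * η ^ 2) := by
  have _hR := hR
  set S := Fintype.piFinset A with hS
  set ex := exp (-(π / 4) * R ^ 2 * η ^ 2) with hex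
  have hex0 : 0 ≤ ex := (exp_pos _).le
  have hcard : (S.card : ℝ) = ∏ i, ((A i).card : ℝ) := by
    rw [hS, Fintype.card_piFinset]
    push_cast
    rfl
  rw [← hcard]
  -- the expectation of a pair
  set E : (Fin J → ℤ × ℤ) → (Fin J → ℤ × ℤ) → ℝ := fun k k' =>
    exp (-π * (∑ l : Fin L, (-R * (cl l α * Mom k k' l).re) ^ 2 +
      ∑ l : Fin L, (-R * (cl l α * Mom k k' l).im) ^ 2)) with hE
  have hE0 : ∀ k k', 0 ≤ E k k' := fun k k' => (exp_pos _).le
  have hE1 : ∀ k k', E k k' ≤ 1 := by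
    intro k k'
    rw [hE]
    refine exp_le_one_iff.mpr ?_
    have h1 : 0 ≤ ∑ l : Fin L, (-R * (cl l α * Mom k k' l).re) ^ 2 +
        ∑ l : Fin L, (-R * (cl l α * Mom k k' l).im) ^ 2 := by positivity
    have h2 := mul_nonneg pi_pos.le h1
    linarith only [h2]
  have hE2 : ∀ k k', ¬ (∀ l < 2 * J, ‖Mom k k' l‖ ≤ η) → E k k' ≤ ex := by
    intro k k' hne
    push Not at hne
    obtain ⟨l, hl, hM⟩ := hne
    rw [hE, hex]
    refine exp_le_exp.mpr ?_
    obtain ⟨l', rfl⟩ : ∃ l' : Fin L, (l' : ℕ) = l := ⟨⟨l, lt_of_lt_of_le hl hJ⟩, rfl⟩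
    clear hl
    have h1 : ∑ l : Fin L, (-R * (cl l α * Mom k k' l).re) ^ 2 +
        ∑ l : Fin L, (-R * (cl l α * Mom k k' l).im) ^ 2 =
        ∑ l : Fin L, (R ^ 2 * ‖cl l α * Mom k k' l‖ ^ 2) := by
      rw [← Finset.sum_add_distrib]
      refine Finset.sum_congr rfl (fun l _ => ?_)
      rw [← Complex.normSq_eq_norm_sq, Complex.normSq_apply]
      ring
    have h2 : R ^ 2 * ‖cl l' α * Mom k k' l'‖ ^ 2 ≤
        ∑ l : Fin L, (R ^ 2 * ‖cl l α * Mom k k' l‖ ^ 2) :=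
      Finset.single_le_sum (f := fun l : Fin L => R ^ 2 * ‖cl l α * Mom k k' l‖ ^ 2)
        (fun i _ => mul_nonneg (sq_nonneg _) (sq_nonneg _)) (Finset.mem_univ l')
    have h3 : 1 / 2 * η ≤ ‖cl l' α * Mom k k' l'‖ := by
      rw [norm_mul]
      exact mul_le_mul (hα.trans (cl_norm_ge l' α)) hM.le hη.le (norm_nonneg _)
    have h4 : (1 / 2 * η) ^ 2 ≤ ‖cl l' α * Mom k k' l'‖ ^ 2 :=
      pow_le_pow_left₀ (by positivity) h3 2
    have h5 : R ^ 2 * (1 / 2 * η) ^ 2 ≤ R ^ 2 * ‖cl l' α * Mom k k' l'‖ ^ 2 :=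
      mul_le_mul_of_nonneg_left h4 (sq_nonneg R)
    have h6 := mul_le_mul_of_nonneg_left (h5.trans h2) pi_pos.le
    rw [h1]
    linarith only [h6]
  -- the integral as a double sum
  have hint : ((∫ w : (Fin L → ℝ) × (Fin L → ℝ), Yq (Hw H₀ w) A b R α ∂(gm L) : ℝ) : ℂ) =
      ∑ m ∈ fq A, ∑ k ∈ S.filter (fun k => ∑ t, k t = m), ∑ k' ∈ S.filter (fun k => ∑ t, k t = m),
        (vt H₀ b R α k * (starRingEnd ℂ) (vt H₀ b R α k')) * ((E k k' : ℝ) : ℂ) := by
    rw [← integral_complex_ofReal]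
    rw [integral_congr_ae (Filter.Eventually.of_forall (fun w => sq_expand h0 A b R α w))]
    rw [integral_finsetSum _ (fun m _ => integrable_finsetSum _ (fun k _ => integrable_finsetSum _ (fun k' _ => int_ee _ _ _)))]
    refine Finset.sum_congr rfl (fun m _ => ?_)
    rw [integral_finsetSum _ (fun k _ => integrable_finsetSum _ (fun k' _ => int_ee _ _ _))]
    refine Finset.sum_congr rfl (fun k _ => ?_)
    rw [integral_finsetSum _ (fun k' _ => int_ee _ _ _)]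
    refine Finset.sum_congr rfl (fun k' _ => ?_)
    rw [integral_const_mul, gm_char]
  have hle : ∫ w : (Fin L → ℝ) × (Fin L → ℝ), Yq (Hw H₀ w) A b R α ∂(gm L) ≤ ∑ k ∈ S, ∑ k' ∈ S, E k k' := by
    calc ∫ w : (Fin L → ℝ) × (Fin L → ℝ), Yq (Hw H₀ w) A b R α ∂(gm L)
        ≤ ‖((∫ w : (Fin L → ℝ) × (Fin L → ℝ), Yq (Hw H₀ w) A b R α ∂(gm L) : ℝ) : ℂ)‖ := by
          rw [Complex.norm_real]
          exact le_abs_self _
      _ ≤ ∑ m ∈ fq A, ∑ k ∈ S.filter (fun k => ∑ t, k t = m), ∑ k' ∈ S, E k k' := by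
          rw [hint]
          refine (norm_sum_le _ _).trans (Finset.sum_le_sum fun m _ => ?_)
          refine (norm_sum_le _ _).trans (Finset.sum_le_sum fun k hk => ?_)
          refine (norm_sum_le _ _).trans ?_
          refine le_trans (Finset.sum_le_sum fun k' hk' => ?_)
            (Finset.sum_le_sum_of_subset_of_nonneg (Finset.filter_subset (fun k => ∑ t, k t = m) S) (fun k' _ _ => hE0 k k'))
          rw [norm_mul, norm_mul, RCLike.norm_conj, Complex.norm_real, Real.norm_eq_abs,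
            abs_of_nonneg (hE0 k k')]
          have h1 : ‖vt H₀ b R α k‖ * ‖vt H₀ b R α k'‖ ≤ 1 :=
            mul_le_one₀ (vt_le H₀ A b hb R α k (Finset.mem_filter.1 hk).1) (norm_nonneg _)
              (vt_le H₀ A b hb R α k' (Finset.mem_filter.1 hk').1)
          exact mul_le_of_le_one_left (hE0 k k') h1
      _ = ∑ k ∈ S, ∑ k' ∈ S, E k k' :=
          Finset.sum_fiberwise_of_maps_to (s := S) (t := fq A) (g := fun k => ∑ t, k t)
            (fun k hk => Finset.mem_image_of_mem _ hk) _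
  refine hle.trans ?_
  have hk : ∀ k ∈ S, ∑ k' ∈ S, E k k' ≤ N + S.card * ex := by
    intro k hk
    rw [← Finset.sum_filter_add_sum_filter_not S (fun k' => ∀ l < 2 * J, ‖Mom k k' l‖ ≤ η)]
    refine add_le_add ?_ ?_
    · calc ∑ k' ∈ S.filter (fun k' => ∀ l < 2 * J, ‖Mom k k' l‖ ≤ η), E k k'
          ≤ ∑ _k' ∈ S.filter (fun k' => ∀ l < 2 * J, ‖Mom k k' l‖ ≤ η), (1 : ℝ) :=
            Finset.sum_le_sum (fun k' _ => hE1 k k')
        _ ≤ N := by
            rw [Finset.sum_const, nsmul_eq_mul, mul_one]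
            exact hN k hk
    · calc ∑ k' ∈ S.filter (fun k' => ¬ ∀ l < 2 * J, ‖Mom k k' l‖ ≤ η), E k k'
          ≤ ∑ _k' ∈ S.filter (fun k' => ¬ ∀ l < 2 * J, ‖Mom k k' l‖ ≤ η), ex := by
            refine Finset.sum_le_sum (fun k' hk' => ?_)
            exact hE2 k k' (Finset.mem_filter.mp hk').2
        _ = ((S.filter (fun k' => ¬ ∀ l < 2 * J, ‖Mom k k' l‖ ≤ η)).card : ℝ) * ex := by
            rw [Finset.sum_const, nsmul_eq_mul]
        _ ≤ S.card * ex := by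
            refine mul_le_mul_of_nonneg_right ?_ hex0
            exact_mod_cast Finset.card_filter_le _ _
  calc ∑ k ∈ S, ∑ k' ∈ S, E k k' ≤ ∑ _k ∈ S, (N + S.card * ex) := Finset.sum_le_sum hk
    _ = S.card * N + (S.card : ℝ) ^ 2 * ex := by
        rw [Finset.sum_const, nsmul_eq_mul]
        ring

end Pool.Agent.Helper96.AD
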