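import Pool.Agent.Helper60.AD.Defs

/-!
# AD-A1: Cauchy-Schwarz over the frequencies

PROOF. `∏_t Sc (A t) = ∑_{k ∈ piFinset A} ∏_t (b t (k t) ee (-(R nk gph))) ee (dt (∑_t k t) c)` (`Finset.prod_univ_sum`)
`= ∑_{m ∈ fq A} co m · ee (dt m c)` (fibres of the sum map). Take norms and apply Cauchy-Schwarz.
-/

open MeasureTheory Real Set Filter Topology

set_option autoImplicit false

namespace Pool.Agent.Helper96.AD

open Pool.Agent.Helper22.AE Pool.Agent.Helper60.AD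
open Pool.Agent.Helper92.GC (dt sqa)

/-- a sum of phases -/
theorem ee_fsum {ι : Type} (s : Finset ι) (f : ι → ℝ) : ee (∑ i ∈ s, f i) = ∏ i ∈ s, ee (f i) := by
  classical
  induction s using Finset.induction_on with
  | empty => simp [ee_zero]
  | insert a s ha ih => rw [Finset.sum_insert ha, Finset.prod_insert ha, ee_add, ih]

theorem dt_fsum {ι : Type} (s : Finset ι) (k : ι → ℤ × ℤ) (c : ℝ × ℝ) : dt (∑ i ∈ s, k i) c = ∑ i ∈ s, dt (k i) c := by
  unfold dt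
  rw [Prod.fst_sum, Prod.snd_sum]
  push_cast
  rw [Finset.sum_mul, Finset.sum_mul, Finset.sum_add_distrib]

/-- the product of the sums is a trigonometric polynomial in the centre -/
theorem prod_Sc {J : ℕ} (h : ℝ → ℝ) (A : Fin J → Finset (ℤ × ℤ)) (b : Fin J → ℤ × ℤ → ℂ) (R α : ℝ) (c : ℝ × ℝ) :
    ∏ t, Sc h (A t) (b t) R α c = ∑ m ∈ fq A, co h A b R α m * ee (dt m c) := by
  classical
  have h1 : ∏ t, Sc h (A t) (b t) R α c = ∑ k ∈ Fintype.piFinset A,
      (∏ t, (b t (k t) * ee (-(R * (nk (k t) * gph h (k t) α))))) * ee (dt (∑ t, k t) c) := by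
    unfold Sc
    rw [Finset.prod_univ_sum]
    refine Finset.sum_congr rfl (fun k _ => ?_)
    rw [Finset.prod_mul_distrib, dt_fsum, ee_fsum]
  rw [h1, ← Finset.sum_fiberwise_of_maps_to (s := Fintype.piFinset A) (t := fq A) (g := fun k => ∑ t, k t)
    (fun k hk => Finset.mem_image_of_mem _ hk)]
  refine Finset.sum_congr rfl (fun m _ => ?_)
  unfold co
  rw [Finset.sum_mul]
  refine Finset.sum_congr (by congr) (fun k hk => ?_)
  rw [(Finset.mem_filter.mp hk).2]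

theorem cs_prod {J : ℕ} (h : ℝ → ℝ) (A : Fin J → Finset (ℤ × ℤ)) (b : Fin J → ℤ × ℤ → ℂ) (R α : ℝ) (c : ℝ × ℝ) :
    ∏ t, ‖Sc h (A t) (b t) R α c‖ ^ 2 ≤ ((fq A).card : ℝ) * Yq h A b R α := by
  rw [Finset.prod_pow, ← norm_prod, prod_Sc]
  have h1 : ‖∑ m ∈ fq A, co h A b R α m * ee (dt m c)‖ ≤ ∑ m ∈ fq A, ‖co h A b R α m‖ := by
    refine (norm_sum_le _ _).trans (le_of_eq (Finset.sum_congr rfl (fun m _ => ?_)))
    rw [norm_mul, ee_norm, mul_one]
  refine (pow_le_pow_left₀ (norm_nonneg _) h1 2).trans ?_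
  unfold Yq
  exact sq_sum_le_card_mul_sum_sq

end Pool.Agent.Helper96.AD
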