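import Pool.Agent.Helper96.AD.Pair
import Pool.Agent.Helper66.QJ.ChainSets
import Pool.Agent.Helper66.QJ.Access

/-!
# Continua containing the critical point and the critical value (MP_a03adf)

`dec_of_diff`: `T ⊆ J` is a continuum through `0` and `c`, not through the fixed point `b`, and neither `T ⊆ f⁻¹ T` nor
`f⁻¹ T ⊆ T`. `dec_of_inv`: the same for `f (X) = X`.
-/

set_option autoImplicit false

open Set Topology Metric Bornology Filter Pool.Agent.Helper66.QJ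

namespace Pool.Agent.Helper96.AD

variable {c : ℂ}

theorem infinite_diff {S F : Set ℂ} (hS : IsPreconnected S) (hF : IsClosed F) (h1 : (S ∩ F).Nonempty)
    (h2 : (S \ F).Nonempty) : (S \ F).Infinite := by
  intro hfin
  obtain ⟨p, hp⟩ := h2
  obtain ⟨z, -, hz1, hz2⟩ := isPreconnected_closed_iff.1 hS F (S \ F) hF hfin.isClosed (fun z hz => by
    by_cases h : z ∈ F
    · exact Or.inl h
    · exact Or.inr ⟨hz, h⟩) h1 ⟨p, hp.1, hp⟩
  exact hz2.2 hz1

/-- the preimage of a point is finite -/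
theorem finite_pre (c a : ℂ) : {z : ℂ | f c z = a}.Finite := by
  obtain ⟨a', ha'⟩ := surj_f c a
  refine (Set.toFinite {a', -a'}).subset fun z hz => ?_
  have h1 : f c z = f c a' := by rw [ha']; exact hz
  rcases f_eq_iff.1 h1 with h | h
  · exact Or.inl h
  · exact Or.inr h

/-- the fixed points form a finite set -/
theorem finite_fix (c : ℂ) (σ : ℂ) : {z : ℂ | f c z = σ * z}.Finite := by
  have h1 : ∀ z : ℂ, z ∈ {z : ℂ | f c z = σ * z} → (z - σ / 2) ^ 2 = σ ^ 2 / 4 - c := by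
    intro z hz
    have h2 : f c z = σ * z := hz
    rw [f] at h2
    linear_combination h2
  obtain ⟨w, hw⟩ := IsAlgClosed.exists_pow_nat_eq (σ ^ 2 / 4 - c) (n := 2) (by norm_num)
  refine (Set.toFinite {w + σ / 2, -w + σ / 2}).subset fun z hz => ?_
  have h3 : (z - σ / 2) ^ 2 = w ^ 2 := by rw [hw]; exact h1 z hz
  rcases sq_eq_sq_iff_eq_or_eq_neg.1 h3 with h | h
  · exact Or.inl (by linear_combination h)
  · exact Or.inr (by
      rw [mem_singleton_iff]
      linear_combination h)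

theorem dec_of_diff {T : Set ℂ} (hT : IsCompact T) (hTc : IsPreconnected T) (hTJ : T ⊆ J c) (h0 : (0 : ℂ) ∈ T)
    (hcT : c ∈ T) {b : ℂ} (hb : f c b = b) (hbJ : b ∈ J c) (hbT : b ∉ T) (hx : (T \ f c ⁻¹' T).Nonempty)
    (hy : (f c ⁻¹' T \ T).Nonempty) : Dec (J c) := by
  have hTK : T ⊆ K c := hTJ.trans (J_sub_K c)
  have hT1K : f c ⁻¹' T ⊆ K c := fun z hz => f_mem_K_iff.1 (hTK hz)
  have hT1 : IsCompact (f c ⁻¹' T) :=
    (isCompact_K c).of_isClosed_subset (hT.isClosed.preimage (continuous_f c)) hT1K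
  have hT1c : IsPreconnected (f c ⁻¹' T) := preimage_conn0 hTc hcT
  have h01 : (0 : ℂ) ∈ f c ⁻¹' T := by
    show f c 0 ∈ T
    rwa [f_zero]
  -- the point `a`
  obtain ⟨x, ⟨hxT, hxT1⟩, hxc⟩ := (infinite_diff hTc hT1.isClosed ⟨0, h0, h01⟩ hx).exists_notMem_finite
    (Set.finite_singleton c)
  have hxc' : 0 < ‖x - c‖ := norm_pos_iff.2 (sub_ne_zero.2 hxc)
  obtain ⟨a, v, haT, -, hax, hv, hs⟩ := cm_near hT hT1 hTK hT1K hxT hxT1 (hTJ hxT) hxc'
  have hac : a ≠ c := by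
    rintro rfl
    rw [norm_sub_rev] at hax
    exact lt_irrefl _ hax
  -- the point `a1`
  obtain ⟨y, ⟨hyT1, hyT⟩, hya⟩ := (infinite_diff hT1c hT.isClosed ⟨0, h01, h0⟩ hy).exists_notMem_finite
    (finite_pre c a)
  have hyJ : y ∈ J c := f_mem_J_iff.1 (hTJ hyT1)
  have hopen : IsOpen {z : ℂ | f c z ≠ a} := isOpen_ne_fun (continuous_f c) continuous_const
  obtain ⟨ε, hε, hεs⟩ := Metric.isOpen_iff.1 hopen y hya
  obtain ⟨a1, v1, ha1T, -, ha1y, hv1, hs1⟩ := cm_near hT1 hT hT1K hTK hyT1 hyT hyJ hε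
  have hne : f c a1 ≠ a := hεs (by rwa [mem_ball, dist_eq_norm])
  refine dec_of_pair hT hTc hTK h0 hcT hb hbJ hbT haT hac hv hs ha1T hne hv1 ?_
  rw [union_comm]
  exact hs1

theorem dec_of_inv {X : Set ℂ} (hX : IsCompact X) (hXc : IsPreconnected X) (hXJ : X ⊆ J c) (h0 : (0 : ℂ) ∈ X)
    (hfX : f c '' X = X) {b : ℂ} (hb : f c b = b) (hbJ : b ∈ J c) (hbX : b ∉ X) : Dec (J c) := by
  have hXK : X ⊆ K c := hXJ.trans (J_sub_K c)
  have hX1K : f c ⁻¹' X ⊆ K c := fun z hz => f_mem_K_iff.1 (hXK hz)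
  have hX1 : IsCompact (f c ⁻¹' X) :=
    (isCompact_K c).of_isClosed_subset (hX.isClosed.preimage (continuous_f c)) hX1K
  have hcX : c ∈ X := by
    rw [← hfX]
    exact ⟨0, h0, f_zero c⟩
  have hsub : X ⊆ f c ⁻¹' X := fun x hx => by
    show f c x ∈ X
    rw [← hfX]
    exact ⟨x, hx, rfl⟩
  have hun : X ∪ f c ⁻¹' X = f c ⁻¹' X := union_eq_self_of_subset_left hsub
  have hc0 : c ≠ 0 := c_ne_zero (hXJ h0)
  -- a point off the finite exceptional set
  have hE : (({z : ℂ | f c z = 1 * z} ∪ {z : ℂ | f c z = -1 * z}) ∪ {c, -c}).Finite :=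
    ((finite_fix c 1).union (finite_fix c (-1))).union (Set.toFinite _)
  obtain ⟨x, ⟨hxX, -⟩, hxE⟩ := (infinite_diff hXc (isClosed_singleton (x := (0 : ℂ))) ⟨0, h0, rfl⟩
    ⟨c, hcX, hc0⟩).exists_notMem_finite hE
  obtain ⟨ε, hε, hεs⟩ := Metric.isOpen_iff.1 hE.isClosed.isOpen_compl x hxE
  obtain ⟨a, v, haX1, -, hax, hv, hs⟩ := cm_near (B := ∅) hX1 isCompact_empty hX1K (empty_subset _) (hsub hxX)
    (notMem_empty x) (hXJ hxX) hε
  rw [union_empty] at hs
  have haE := hεs (by rwa [mem_ball, dist_eq_norm] : a ∈ ball x ε)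
  simp only [mem_compl_iff, mem_union, mem_ofPred_eq, mem_insert_iff, mem_singleton_iff, not_or, one_mul,
    neg_mul] at haE
  obtain ⟨⟨hfa, hfa'⟩, hac, hac'⟩ := haE
  have haf : f c a ∈ X := haX1
  have h2 : a ∈ X ∨ -a ∈ X := by
    rw [← hfX] at haf
    obtain ⟨t, ht, hta⟩ := haf
    rcases f_eq_iff.1 hta with h | h
    · exact Or.inl (h ▸ ht)
    · exact Or.inr (h ▸ ht)
  rcases h2 with h2 | h2
  · refine dec_of_pair hX hXc hXK h0 hcX hb hbJ hbX h2 hac hv ?_ haX1 hfa hv ?_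
    · rw [hun]
      exact hs
    · rw [hun]
      exact hs
  · have hs' : ∀ s ∈ Ioc (0 : ℝ) 1, -a + s * (-v - -a) ∈ Cm c (X ∪ f c ⁻¹' X) := by
      intro s hs1
      have h3 := hs s hs1
      rw [hun, ← cm_pre hX hXK] at *
      rw [mem_preimage] at h3 ⊢
      rw [show -a + (s : ℂ) * (-v - -a) = -(a + s * (v - a)) by ring, f_neg]
      exact h3
    refine dec_of_pair hX hXc hXK h0 hcX hb hbJ hbX h2 (fun h => hac' (by rw [← h, neg_neg]))
      (Pool.Agent.Helper83.AD.neg_notMem_K hv) hs' ?_ ?_ (Pool.Agent.Helper83.AD.neg_notMem_K hv) hs'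
    · rw [f_neg]
      exact haX1
    · rw [f_neg]
      exact hfa'

end Pool.Agent.Helper96.AD
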