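import Pool.Agent.Helper66.QK.Bound
import Pool.Agent.Helper66.QJ.Internal

/-!
# Block CO: the component of the complement of a compact set which contains the basin of infinity

`Cm c T` is the component of `Tᶜ` which contains `(K c)ᶜ` (connected by `isPreconnected_compl_K`); for compact `T ⊆ K c`.
`cm_open` (components of open subsets of the plane are open: `IsOpen.connectedComponentIn`), `cm_conn`
(`isPreconnected_connectedComponentIn`), `cm_sup`, `cm_sub` are routine. `cm_J`: near a point `z ∈ J c \ T` there is a ball in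
`Tᶜ` and a point of `(K c)ᶜ` in it (`J c` is the frontier of `K c`). `cm_anti`: monotone. `cm_pre`: `f⁻¹ (Cm c T)` is connected
by `preimage_conn` (file QJ/Dyn) with `S = (K c)ᶜ` and any `y ∉ K c`, it is disjoint from `f⁻¹ T` and contains `(K c)ᶜ`
(`f_mem_K_iff`); conversely `Cm c (f⁻¹ T)` is mapped into the component of `Tᶜ` containing `(K c)ᶜ`; so the two are equal.
`cm_near`: the nearest point. Let `x ∈ A ∪ B`, `x ∈ J c`, `x ∉ B`, `A`, `B` compact in `K c`. Let `3 r ≤ dist (x, B)`, `r ≤ ε`;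
take `p ∉ K c` with `‖p - x‖ < r` (`x ∈ frontier (K c)`) and `a ∈ A ∪ B` a nearest point to `p`. Then `‖a - p‖ ≤ ‖p - x‖ < r`, so
`‖a - x‖ < 2 r`, `a ∉ B`, `a ∈ A`. The points `a + s (p - a)`, `0 < s ≤ 1`, have distance `(1 - s) ‖p - a‖ < ‖p - a‖` from `p`,
so they are outside `A ∪ B`; they form with `(K c)ᶜ ∋ p` a connected set in the complement of `A ∪ B`.
-/

set_option autoImplicit false

open Set Topology Metric Bornology Filter Pool.Agent.Helper66.QJ

namespace Pool.Agent.Helper96.AD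

/-- the component of the complement of `T` which contains the basin of infinity -/
def Cm (c : ℂ) (T : Set ℂ) : Set ℂ := connectedComponentIn Tᶜ ((R0 c : ℂ) + 1)

variable {c : ℂ} {T : Set ℂ}

theorem far_point (c : ℂ) : ((R0 c : ℂ) + 1) ∉ K c := by
  apply not_mem_K_of_lt
  have h1 : ((R0 c : ℂ) + 1) = ((R0 c + 1 : ℝ) : ℂ) := by push_cast; ring
  rw [h1, Complex.norm_real, Real.norm_of_nonneg (by have := R0_pos c; linarith)]
  linarith

theorem cm_open (hT : IsCompact T) : IsOpen (Cm c T) :=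
  hT.isClosed.isOpen_compl.connectedComponentIn

theorem cm_conn (c : ℂ) (T : Set ℂ) : IsPreconnected (Cm c T) := isPreconnected_connectedComponentIn

theorem cm_sub {z : ℂ} (hz : z ∈ Cm c T) : z ∉ T := connectedComponentIn_subset _ _ hz

/-- a connected set which meets the basin of infinity and is disjoint from `T` is in `Cm c T` -/
theorem sub_cm (hTK : T ⊆ K c) {S : Set ℂ} (hS : IsPreconnected S) (hST : Disjoint S T) {p : ℂ} (hp : p ∈ S)
    (hpK : p ∉ K c) : S ⊆ Cm c T := by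
  have h1 : IsPreconnected (S ∪ (K c)ᶜ) := hS.union p hp hpK (isPreconnected_compl_K c)
  refine subset_union_left.trans (h1.subset_connectedComponentIn (Or.inr (far_point c)) ?_)
  rintro z (hz | hz) hzT
  · exact disjoint_left.1 hST hz hzT
  · exact hz (hTK hzT)

theorem cm_sup (hTK : T ⊆ K c) : (K c)ᶜ ⊆ Cm c T :=
  sub_cm hTK (isPreconnected_compl_K c) (disjoint_left.2 fun _ hz hzT => hz (hTK hzT)) (far_point c) (far_point c)

theorem cm_J (hT : IsCompact T) (hTK : T ⊆ K c) {z : ℂ} (hz : z ∈ J c) (hzT : z ∉ T) : z ∈ Cm c T := by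
  obtain ⟨r, hr, hrT⟩ := Metric.isOpen_iff.1 hT.isClosed.isOpen_compl z hzT
  obtain ⟨a, ha, hya⟩ := Metric.mem_closure_iff.1 (mem_J_iff.1 hz).2 r hr
  refine sub_cm hTK (convex_ball z r).isPreconnected (disjoint_left.2 fun w hw hwT => hrT hw hwT)
    (p := a) ?_ ha (mem_ball_self hr)
  rw [mem_ball, dist_comm]
  exact hya

theorem cm_anti {T' : Set ℂ} (hTK : T' ⊆ K c) (h : T ⊆ T') : Cm c T' ⊆ Cm c T :=
  connectedComponentIn_mono _ (compl_subset_compl.2 h)

theorem cm_pre (hT : IsCompact T) (hTK : T ⊆ K c) : f c ⁻¹' (Cm c T) = Cm c (f c ⁻¹' T) := by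
  have hpK : f c ⁻¹' T ⊆ K c := fun z hz => f_mem_K_iff.1 (hTK hz)
  apply Subset.antisymm
  · have h1 : IsPreconnected (f c ⁻¹' (Cm c T)) := by
      refine preimage_conn (S := (K c)ᶜ) (y := (R0 c : ℂ) + 1) (cm_conn c T) (isPreconnected_compl_K c) ?_ ?_ ?_
      · intro z hz
        exact cm_sup hTK (fun h => hz (f_mem_K_iff.1 h))
      · exact cm_sup hTK (far_point c)
      · intro z hz h
        exact far_point c (hz ▸ f_mem_K_iff.2 h)
    refine sub_cm hpK h1 (disjoint_left.2 fun z hz hzT => cm_sub hz hzT) (p := (R0 c : ℂ) + 1) ?_ (far_point c)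
    exact cm_sup hTK (fun h => far_point c (f_mem_K_iff.1 h))
  · have h1 : IsPreconnected (f c '' Cm c (f c ⁻¹' T)) := (cm_conn c _).image _ (continuous_f c).continuousOn
    have h2 : f c '' Cm c (f c ⁻¹' T) ⊆ Cm c T := by
      refine sub_cm hTK h1 ?_ (p := f c ((R0 c : ℂ) + 1)) (mem_image_of_mem _ (cm_sup hpK (far_point c)))
        (fun h => far_point c (f_mem_K_iff.1 h))
      rw [disjoint_left]
      rintro _ ⟨z, hz, rfl⟩ hzT
      exact cm_sub hz hzT
    exact fun z hz => h2 (mem_image_of_mem _ hz)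

theorem cm_near {A B : Set ℂ} (hA : IsCompact A) (hB : IsCompact B) (hAK : A ⊆ K c) (hBK : B ⊆ K c) {x : ℂ}
    (hxA : x ∈ A) (hxB : x ∉ B) (hxJ : x ∈ J c) {ε : ℝ} (hε : 0 < ε) :
    ∃ a v : ℂ, a ∈ A ∧ a ∉ B ∧ ‖a - x‖ < ε ∧ v ∉ K c ∧ ∀ s ∈ Ioc (0 : ℝ) 1, a + s * (v - a) ∈ Cm c (A ∪ B) := by
  obtain ⟨r, hr, hrB⟩ := Metric.isOpen_iff.1 hB.isClosed.isOpen_compl x hxB
  obtain ⟨δ, hδ, hδr, hδε⟩ : ∃ δ : ℝ, 0 < δ ∧ 2 * δ ≤ r ∧ 2 * δ ≤ ε :=
    ⟨min (r / 2) (ε / 2), by positivity, by have := min_le_left (r / 2) (ε / 2); linarith,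
      by have := min_le_right (r / 2) (ε / 2); linarith⟩
  obtain ⟨p, hp, hxp⟩ := Metric.mem_closure_iff.1 (mem_J_iff.1 hxJ).2 δ hδ
  obtain ⟨a, ha, hap⟩ := (hA.union hB).exists_infDist_eq_dist ⟨x, Or.inl hxA⟩ p
  have hmin : ∀ w ∈ A ∪ B, dist p a ≤ dist p w := fun w hw => hap ▸ Metric.infDist_le_dist_of_mem hw
  have h1 : dist p a ≤ dist p x := hmin x (Or.inl hxA)
  have h2 : dist a x < 2 * δ := by
    calc dist a x ≤ dist a p + dist p x := dist_triangle _ _ _
      _ = dist p a + dist x p := by rw [dist_comm a p, dist_comm p x]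
      _ < 2 * δ := by rw [dist_comm p x] at h1; linarith
  have haB : a ∉ B := fun h => hrB (mem_ball.2 (h2.trans_le hδr)) h
  have haA : a ∈ A := ha.resolve_right haB
  refine ⟨a, p, haA, haB, ?_, hp, ?_⟩
  · rw [← dist_eq_norm]
    exact h2.trans_le hδε
  · have hABK : A ∪ B ⊆ K c := union_subset hAK hBK
    have hpa : 0 < dist p a := by
      rw [dist_pos]
      rintro rfl
      exact hp (hAK haA)
    have h3 : IsPreconnected ((fun s : ℝ => a + s * (p - a)) '' Ioc (0 : ℝ) 1) :=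
      isPreconnected_Ioc.image _ (by fun_prop)
    have h4 : (fun s : ℝ => a + s * (p - a)) '' Ioc (0 : ℝ) 1 ⊆ Cm c (A ∪ B) := by
      refine sub_cm hABK h3 ?_ (p := p) ⟨1, by simp, by simp⟩ hp
      rw [disjoint_left]
      rintro _ ⟨s, hs, rfl⟩ hsT
      have h5 := hmin _ hsT
      have h6 : dist p (a + s * (p - a)) = (1 - s) * dist p a := by
        rw [dist_eq_norm, dist_eq_norm]
        have e1 : p - (a + s * (p - a)) = ((1 - s : ℝ) : ℂ) * (p - a) := by push_cast; ring
        rw [e1, norm_mul, Complex.norm_real, Real.norm_of_nonneg (by linarith [hs.2])]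
      have h7 : dist p a ≤ (1 - s) * dist p a := by
        rw [← h6]
        exact h5
      nlinarith [hs.1]
    exact fun s hs => h4 (mem_image_of_mem _ hs)

end Pool.Agent.Helper96.AD
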