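import Pool.Agent.Helper96.AD.BoundG
import Pool.Agent.Helper96.AD.BoundL
import Pool.Agent.Helper96.AD.Comps
import Pool.Agent.Helper83.AD.Chi

/-!
# Two visible points make the Julia set decomposable (MP_a03adf)

`T ⊆ K` is a continuum which contains the critical point `0` and the critical value `c`, but not the fixed point `b ∈ J`;
`a ∈ T` and `a1 ∈ f⁻¹ T` are end points of segments in the component `Cm c (T ∪ f⁻¹ T)` of the complement. Then the argument
of `(f z - a) / (z - a) ^ 2` is bounded on that component, and `J` is decomposable (`dec_of_P`, file Helper83/AD/Chi).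
-/

set_option autoImplicit false

open Set Topology Metric Bornology Filter Pool.Agent.Helper66.QJ

namespace Pool.Agent.Helper96.AD

variable {c : ℂ}

/-- the quotient tends to `1` at infinity -/
theorem u_near (c a a1 : ℂ) : ∃ r : ℝ, ∀ z : ℂ, r < ‖z‖ → f c z - a ≠ 0 ∧ ‖(z - a1) ^ 2 / (f c z - a) - 1‖ < 1 := by
  set M : ℝ := ‖a1 ^ 2 - c + a‖ + 2 * ‖a1‖ + 1 with hM
  have hM1 : 1 ≤ M := by
    rw [hM]
    linarith [norm_nonneg (a1 ^ 2 - c + a), norm_nonneg a1]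
  set N : ℝ := ‖c - a‖ with hN
  have hN0 : 0 ≤ N := norm_nonneg _
  refine ⟨2 * M + N + 2, fun z hz => ?_⟩
  have hz1 : N + 2 ≤ ‖z‖ := by linarith
  have hz2 : 2 * M < ‖z‖ := by linarith
  have hd : ‖z‖ ^ 2 / 2 ≤ ‖f c z - a‖ := by
    have h1 : f c z - a = z ^ 2 + (c - a) := by
      unfold f
      ring
    have h2 := norm_sub_norm_le (z ^ 2) (-(c - a))
    rw [norm_neg, norm_pow, sub_neg_eq_add, ← h1, ← hN] at h2
    nlinarith
  have hzp : 0 < ‖z‖ := by linarith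
  have hdp : 0 < ‖f c z - a‖ := lt_of_lt_of_le (by positivity) hd
  have hne : f c z - a ≠ 0 := norm_pos_iff.1 hdp
  refine ⟨hne, ?_⟩
  have h3 : (z - a1) ^ 2 / (f c z - a) - 1 = ((a1 ^ 2 - c + a) - 2 * a1 * z) / (f c z - a) := by
    field_simp
    unfold f
    ring
  rw [h3, norm_div, div_lt_one hdp]
  have h4 : ‖(a1 ^ 2 - c + a) - 2 * a1 * z‖ ≤ M * ‖z‖ := by
    have h5 := norm_sub_le (a1 ^ 2 - c + a) (2 * a1 * z)
    have h6 : ‖2 * a1 * z‖ = 2 * ‖a1‖ * ‖z‖ := by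
      rw [norm_mul, norm_mul]
      simp
    rw [h6] at h5
    have h7 : ‖a1 ^ 2 - c + a‖ ≤ ‖a1 ^ 2 - c + a‖ * ‖z‖ := by
      have : (1 : ℝ) ≤ ‖z‖ := by linarith
      nlinarith [norm_nonneg (a1 ^ 2 - c + a)]
    rw [hM]
    nlinarith
  nlinarith

/-- a continuous logarithm of `(z - p) / (z - q)` on an open connected set outside a continuum containing `p`, `q` -/
theorem exists_log {W V : Set ℂ} (hW : IsClosed W) (hWc : IsPreconnected W) {p q : ℂ} (hp : p ∈ W) (hq : q ∈ W)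
    (hV : IsOpen V) (hVc : IsPreconnected V) (hVW : ∀ z ∈ V, z ∉ W) :
    ∃ L : ℂ → ℂ, ContinuousOn L V ∧ ∀ z ∈ V, Complex.exp (L z) = (z - p) / (z - q) := by
  refine log_glue (u := fun z => (z - p) / (z - q)) hV hVc ?_
  intro A hA hAs
  obtain ⟨δ, hδ, hd⟩ := exists_dist hA hW (Set.disjoint_left.2 fun z hz hz' => hVW z (hAs hz) hz')
  exact log_ratio hWc hp hq hδ hd

theorem dec_of_pair {T : Set ℂ} (hT : IsCompact T) (hTc : IsPreconnected T) (hTK : T ⊆ K c) (h0 : (0 : ℂ) ∈ T)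
    (hcT : c ∈ T) {b : ℂ} (hb : f c b = b) (hbJ : b ∈ J c) (hbT : b ∉ T) {a v a1 v1 : ℂ} (haT : a ∈ T) (hac : a ≠ c)
    (hv : v ∉ K c) (hs : ∀ s ∈ Ioc (0 : ℝ) 1, a + s * (v - a) ∈ Cm c (T ∪ f c ⁻¹' T)) (ha1 : f c a1 ∈ T)
    (hne : f c a1 ≠ a) (hv1 : v1 ∉ K c) (hs1 : ∀ s ∈ Ioc (0 : ℝ) 1, a1 + s * (v1 - a1) ∈ Cm c (T ∪ f c ⁻¹' T)) :
    Dec (J c) := by
  have hT1 : IsCompact (f c ⁻¹' T) := by
    have h1 : f c ⁻¹' T ⊆ K c := fun z hz => f_mem_K_iff.1 (hTK hz)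
    exact (isCompact_K c).of_isClosed_subset (hT.isClosed.preimage (continuous_f c)) h1
  have hT1K : f c ⁻¹' T ⊆ K c := fun z hz => f_mem_K_iff.1 (hTK hz)
  have hT1c : IsPreconnected (f c ⁻¹' T) := preimage_conn0 hTc hcT
  have h01 : (0 : ℂ) ∈ f c ⁻¹' T := by
    show f c 0 ∈ T
    rwa [f_zero]
  have hW : IsCompact (T ∪ f c ⁻¹' T) := hT.union hT1
  have hWc : IsPreconnected (T ∪ f c ⁻¹' T) := hTc.union 0 h0 h01 hT1c
  have hWK : T ∪ f c ⁻¹' T ⊆ K c := union_subset hTK hT1K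
  have hV0K : (K c)ᶜ ⊆ Cm c T := cm_sup hTK
  have hVV0 : Cm c (T ∪ f c ⁻¹' T) ⊆ Cm c T := cm_anti hWK subset_union_left
  have hVV1 : Cm c (T ∪ f c ⁻¹' T) ⊆ f c ⁻¹' (Cm c T) := by
    rw [cm_pre hT hTK]
    exact cm_anti hWK subset_union_right
  have hV1c : IsPreconnected (f c ⁻¹' (Cm c T)) := by
    rw [cm_pre hT hTK]
    exact cm_conn c _
  have hV1o : IsOpen (f c ⁻¹' (Cm c T)) := (cm_open hT).preimage (continuous_f c)
  have hVo : IsOpen (Cm c (T ∪ f c ⁻¹' T)) := cm_open hW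
  have hVc : IsPreconnected (Cm c (T ∪ f c ⁻¹' T)) := cm_conn c _
  -- the first logarithm
  obtain ⟨a', ha'⟩ := surj_f c a
  have ha'W : a' ∈ f c ⁻¹' T := by
    show f c a' ∈ T
    rwa [ha']
  have ha''W : -a' ∈ f c ⁻¹' T := by
    show f c (-a') ∈ T
    rwa [f_neg, ha']
  have hfac : ∀ z, f c z - a = (z - a') * (z - -a') := by
    intro z
    rw [← ha']
    unfold f
    ring
  obtain ⟨M1, hM1, hM1e⟩ := exists_log hT1.isClosed hT1c (show a1 ∈ f c ⁻¹' T from ha1) ha'W hV1o hV1c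
    fun z hz h => cm_sub hz h
  obtain ⟨M2, hM2, hM2e⟩ := exists_log hT1.isClosed hT1c (show a1 ∈ f c ⁻¹' T from ha1) ha''W hV1o hV1c
    fun z hz h => cm_sub hz h
  obtain ⟨L2, hL2, hL2e⟩ := exists_log hW.isClosed hWc (show a1 ∈ T ∪ f c ⁻¹' T from Or.inr ha1)
    (show a ∈ T ∪ f c ⁻¹' T from Or.inl haT) hVo hVc fun z hz h => cm_sub hz h
  set L1 : ℂ → ℂ := fun z => M1 z + M2 z with hL1d
  have hL1 : ContinuousOn L1 (f c ⁻¹' (Cm c T)) := hM1.add hM2
  have hL1e : ∀ z, f c z ∈ Cm c T → Complex.exp (L1 z) = (z - a1) ^ 2 / (f c z - a) := by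
    intro z hz
    rw [hL1d]
    simp only
    rw [Complex.exp_add, hM1e z hz, hM2e z hz, hfac, div_mul_div_comm, sq]
  -- bounds
  obtain ⟨r, hr⟩ := u_near c a a1
  have hfarK : ∀ z : ℂ, max r (R0 c) < ‖z‖ → z ∉ K c := fun z hz =>
    not_mem_K_of_lt (lt_of_le_of_lt (le_max_right _ _) hz)
  have hfarV : ∀ z : ℂ, max r (R0 c) < ‖z‖ → f c z ∈ Cm c T := fun z hz =>
    hV0K fun h => hfarK z hz (f_mem_K_iff.1 h)
  obtain ⟨B0, hB0⟩ := bdd_far (u := fun z => (z - a1) ^ 2 / (f c z - a)) (L := L1) (r := max r (R0 c))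
    (hL1.mono fun z hz => hfarV z hz) (fun z hz => hL1e z (hfarV z hz))
    (ContinuousOn.div (by fun_prop) ((continuous_f c).sub continuous_const).continuousOn
      fun z hz => (hr z (lt_of_le_of_lt (le_max_left _ _) hz)).1)
    fun z hz => (hr z (lt_of_le_of_lt (le_max_left _ _) hz)).2
  obtain ⟨B1, hB1⟩ := bound_G (c := c) (a := a) (v := v) (a1 := a1) (v1 := v1) (cm_open hT) hV1c hV0K
    (fun h => cm_sub h hcT) (fun h => cm_sub h haT) hac hv (fun s hs' => hVV0 (hs s hs')) (fun h => cm_sub h ha1) hne hv1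
    (fun s hs' => hVV1 (hs1 s hs')) hL1 hL1e (r := max r (R0 c) + 1) (B0 := B0)
    fun z hz => hB0 z (by linarith)
  obtain ⟨B2, hB2⟩ := bound_L (c := c) (p := a1) (q := a) (v := v1) (v' := v) hVo hVc (cm_sup hWK)
    (fun h => cm_sub h (Or.inr ha1)) (fun h => cm_sub h (Or.inl haT)) hv1 hv hs1 hs hL2 hL2e
  -- the argument
  set P : ℂ → ℝ := fun z => (-(L1 z).im + 2 * (L2 z).im) / (2 * Real.pi) with hPd
  have hbV : b ∈ Cm c (T ∪ f c ⁻¹' T) := by
    refine cm_J hW hWK hbJ ?_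
    rintro (h | h)
    · exact hbT h
    · have h2 : f c b ∈ T := h
      rw [hb] at h2
      exact hbT h2
  have hDom : Pool.Agent.Helper83.AD.Dom c b ⊆ Cm c (T ∪ f c ⁻¹' T) := by
    rintro z (hz | hz)
    · exact cm_sup hWK hz
    · rw [mem_singleton_iff.1 hz]
      exact hbV
  have hpi : 0 < 2 * Real.pi := by positivity
  refine Pool.Agent.Helper83.AD.dec_of_P (P := fun _ => P) (a := fun _ => a) (C := (B1 + 2 * B2) / (2 * Real.pi)) hbJ hb
    (fun _ => hTK haT) (fun _ h => hbT (h ▸ haT)) ?_ ?_ ?_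
  · intro _ z hz
    have hz' := hDom hz
    have h1 := abs_le.1 (hB1 z (hVV1 hz'))
    have h2 := abs_le.1 (hB2 z hz')
    rw [hPd]
    simp only
    rw [abs_div, abs_of_pos hpi]
    refine div_le_div_of_nonneg_right ?_ hpi.le
    rw [abs_le]
    constructor <;> linarith [h1.1, h1.2, h2.1, h2.2]
  · intro _
    have h1 : ContinuousOn (fun z => (L1 z).im) (Pool.Agent.Helper83.AD.Dom c b) :=
      Complex.continuous_im.comp_continuousOn (hL1.mono fun z hz => hVV1 (hDom hz))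
    have h2 : ContinuousOn (fun z => (L2 z).im) (Pool.Agent.Helper83.AD.Dom c b) :=
      Complex.continuous_im.comp_continuousOn (hL2.mono hDom)
    exact (h1.neg.add (continuousOn_const.mul h2)).div_const _
  · intro _ z hz
    have hz' := hDom hz
    have hza : z - a ≠ 0 := sub_ne_zero.2 fun h => cm_sub hz' (Or.inl (h ▸ haT))
    have hza1 : z - a1 ≠ 0 := sub_ne_zero.2 fun h => cm_sub hz' (Or.inr (show f c z ∈ T from h ▸ ha1))
    have hfa : f c z - a ≠ 0 := sub_ne_zero.2 fun h => cm_sub hz' (Or.inr (show f c z ∈ T from h ▸ haT))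
    have h1 : Complex.exp (-L1 z + 2 * L2 z) = (f c z - a) / (z - a) ^ 2 := by
      have h2 : Complex.exp (2 * L2 z) = Complex.exp (L2 z) ^ 2 := by
        rw [← Complex.exp_nat_mul]
        norm_num
      rw [Complex.exp_add, Complex.exp_neg, h2, hL1e z (hVV1 hz'), hL2e z hz']
      field_simp
    have h3 : e (P z) = Complex.exp (((-L1 z + 2 * L2 z).im : ℝ) * Complex.I) := by
      rw [e]
      congr 1
      have h4 : (-L1 z + 2 * L2 z).im = 2 * Real.pi * P z := by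
        rw [hPd]
        simp only [Complex.add_im, Complex.neg_im, Complex.mul_im]
        have h5 : (2 : ℂ).re = 2 := rfl
        have h6 : (2 : ℂ).im = 0 := rfl
        rw [h5, h6]
        field_simp
        ring
      rw [h4]
      push_cast
      ring
    rw [h3, ← h1, Complex.norm_exp, Complex.ofReal_exp, ← Complex.exp_add]
    congr 1
    rw [Complex.re_add_im]

end Pool.Agent.Helper96.AD
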