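import Pool.Agent.Helper66.QJ.Dyn

/-!
# Block CORE: the invariant continuum in a forward invariant one
-/

set_option autoImplicit false

open Set Topology Metric Bornology Filter Pool.Agent.Helper66.QJ

namespace Pool.Agent.Helper96.AD

theorem exists_core {c : ℂ} {T : Set ℂ} (hT : IsCompact T) (hTc : IsPreconnected T) (h0 : (0 : ℂ) ∈ T)
    (hf : f c '' T ⊆ T) (hrec : ∀ n : ℕ, (0 : ℂ) ∈ closure ((fun k => (f c)^[k] 0) '' Ioi n)) :
    ∃ X ⊆ T, IsCompact X ∧ IsPreconnected X ∧ (0 : ℂ) ∈ X ∧ f c '' X = X := by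
  set S : ℕ → Set ℂ := fun n => (f c)^[n] '' T with hS
  have hcont : ∀ n, Continuous ((f c)^[n]) := fun n => (continuous_f c).iterate n
  have hScomp : ∀ n, IsCompact (S n) := fun n => hT.image (hcont n)
  have hSconn : ∀ n, IsPreconnected (S n) := fun n => hTc.image _ (hcont n).continuousOn
  have hmaps : ∀ n : ℕ, ∀ x ∈ T, (f c)^[n] x ∈ T := by
    intro n
    induction n with
    | zero => exact fun x hx => hx
    | succ n ih =>
      intro x hx
      rw [Function.iterate_succ_apply]
      exact ih _ (hf ⟨x, hx, rfl⟩)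
  have hanti : ∀ {m n : ℕ}, m ≤ n → S n ⊆ S m := by
    rintro m n hmn _ ⟨x, hx, rfl⟩
    refine ⟨(f c)^[n - m] x, hmaps _ x hx, ?_⟩
    rw [← Function.iterate_add_apply, Nat.add_sub_cancel' hmn]
  have hfS : ∀ n, f c '' S n = S (n + 1) := by
    intro n
    rw [hS]
    simp only
    rw [Function.iterate_succ', image_comp]
  refine ⟨⋂ n, S n, ?_, ?_, iInter_conn hScomp hSconn hanti, ?_, ?_⟩
  · intro x hx
    have h1 := mem_iInter.1 hx 0
    obtain ⟨t, ht, rfl⟩ := h1
    exact ht
  · exact (hScomp 0).of_isClosed_subset (isClosed_iInter fun n => (hScomp n).isClosed) (iInter_subset _ 0)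
  · refine mem_iInter.2 fun n => (hScomp n).isClosed.closure_subset_iff.2 ?_ (hrec n)
    rintro _ ⟨k, hk, rfl⟩
    refine ⟨(f c)^[k - n] 0, hmaps _ 0 h0, ?_⟩
    rw [← Function.iterate_add_apply, Nat.add_sub_cancel' (le_of_lt hk)]
  · apply subset_antisymm
    · rintro _ ⟨x, hx, rfl⟩
      refine mem_iInter.2 fun n => hanti (Nat.le_succ n) ?_
      rw [← hfS]
      exact ⟨x, mem_iInter.1 hx n, rfl⟩
    · intro y hy
      obtain ⟨x, hxy⟩ := surj_f c y
      have h1 : ∀ n, x ∈ S n ∨ -x ∈ S n := by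
        intro n
        have h2 := mem_iInter.1 hy (n + 1)
        rw [← hfS] at h2
        obtain ⟨t, ht, hty⟩ := h2
        rw [← hxy] at hty
        rcases f_eq_iff.1 hty with h | h
        · exact Or.inl (h ▸ ht)
        · exact Or.inr (h ▸ ht)
      by_cases h2 : ∀ n, x ∈ S n
      · exact ⟨x, mem_iInter.2 h2, hxy⟩
      · push Not at h2
        obtain ⟨m, hm⟩ := h2
        refine ⟨-x, mem_iInter.2 fun n => ?_, by rw [f_neg, hxy]⟩
        rcases h1 (max m n) with h | h
        · exact absurd (hanti (le_max_left m n) h) hm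
        · exact hanti (le_max_right m n) h

end Pool.Agent.Helper96.AD
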