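import Pool.Agent.Helper96.AD.Comps
import Pool.Agent.Helper66.QK.Bound
import Pool.Agent.Helper39.Montel

/-!
# Block NB: a proper subcontinuum of `J` through `0` and `c` is not backward invariant

If `f⁻¹ T ⊆ T` then `f` maps the component `V = Cm c (f⁻¹ T)` into itself. `V` is simply connected, so
`(z - p) / (z - q)` (`p ≠ q` in `f⁻¹ T`) has a root `r`, and `h = 1 / (r + r (z*))` is bounded. The functions `h ∘ f^n` have a
locally uniform limit, which is constant near infinity, hence constant; but at the fixed point `b` it is `h b`.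
-/

set_option autoImplicit false

open Set Topology Metric Bornology Filter Pool.Agent.Helper66.QJ

namespace Pool.Agent.Helper96.AD

private theorem exists_log' {W V : Set ℂ} (hW : IsClosed W) (hWc : IsPreconnected W) {p q : ℂ} (hp : p ∈ W) (hq : q ∈ W)
    (hV : IsOpen V) (hVc : IsPreconnected V) (hVW : ∀ z ∈ V, z ∉ W) :
    ∃ L : ℂ → ℂ, ContinuousOn L V ∧ ∀ z ∈ V, Complex.exp (L z) = (z - p) / (z - q) := by
  refine log_glue (u := fun z => (z - p) / (z - q)) hV hVc ?_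
  intro A hA hAs
  obtain ⟨δ, hδ, hd⟩ := exists_dist hA hW (Set.disjoint_left.2 fun z hz hz' => hVW z (hAs hz) hz')
  exact log_ratio hWc hp hq hδ hd

theorem root_far {u L : ℂ → ℂ} {r : ℝ} (hL : ContinuousOn L {z : ℂ | r < ‖z‖})
    (hLe : ∀ z : ℂ, r < ‖z‖ → Complex.exp (L z) = u z) (hu : ContinuousOn u {z : ℂ | r < ‖z‖})
    (hu1 : ∀ z : ℂ, r < ‖z‖ → ‖u z - 1‖ < 1) (hlim : Tendsto u (cobounded ℂ) (𝓝 1)) :
    ∃ σ : ℂ, σ ^ 2 = 1 ∧ Tendsto (fun z => Complex.exp (L z / 2)) (cobounded ℂ) (𝓝 σ) := by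
  have hslit : ∀ z : ℂ, r < ‖z‖ → u z ∈ Complex.slitPlane := by
    intro z hz
    exact Complex.mem_slitPlane_of_norm_lt_one (hu1 z hz) |> fun h => by simpa using h
  have hcontlog : ContinuousOn (fun z => Complex.log (u z)) {z : ℂ | r < ‖z‖} :=
    hu.clog fun z hz => hslit z hz
  have hexplog : ∀ z : ℂ, r < ‖z‖ → Complex.exp (Complex.log (u z)) = u z :=
    fun z hz => Complex.exp_log (Complex.slitPlane_ne_zero (hslit z hz))
  set z0 : ℂ := ((|r| + 1 : ℝ) : ℂ) with hz0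
  have hz0n : r < ‖z0‖ := by
    rw [hz0, Complex.norm_real, Real.norm_of_nonneg (by positivity)]
    linarith [le_abs_self r]
  set C : ℂ := L z0 - Complex.log (u z0) with hC
  have hC1 : Complex.exp C = 1 := by
    rw [hC, Complex.exp_sub, hLe z0 hz0n, hexplog z0 hz0n, div_self (Complex.slitPlane_ne_zero (hslit z0 hz0n))]
  refine ⟨Complex.exp (C / 2), ?_, ?_⟩
  · rw [← Complex.exp_nat_mul]
    rw [← hC1]
    congr 1
    push_cast
    ring
  · have h1 : ∀ᶠ z in cobounded ℂ, Complex.exp (C / 2) * Complex.exp (Complex.log (u z) / 2) = Complex.exp (L z / 2) := by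
      have h2 : ∀ᶠ z in cobounded ℂ, r < ‖z‖ := tendsto_norm_cobounded_atTop.eventually_gt_atTop r
      filter_upwards [h2] with z hz
      have h3 := log_unique (isPreconnected_far r) hL hcontlog
        (fun z hz => by rw [hLe z hz, hexplog z hz]) (x := z) (y := z0) hz hz0n
      rw [← hC] at h3
      rw [← Complex.exp_add, ← h3]
      congr 1
      ring
    have h4 : Tendsto (fun z => Complex.log (u z)) (cobounded ℂ) (𝓝 (Complex.log 1)) :=
      hlim.clog Complex.one_mem_slitPlane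
    rw [Complex.log_one] at h4
    have h5 : Tendsto (fun z => Complex.exp (C / 2) * Complex.exp (Complex.log (u z) / 2)) (cobounded ℂ)
        (𝓝 (Complex.exp (C / 2) * Complex.exp (0 / 2))) :=
      ((Complex.continuous_exp.tendsto _).comp (h4.div_const 2)).const_mul _
    rw [zero_div, Complex.exp_zero, mul_one] at h5
    exact h5.congr' h1

theorem ratio_far (p q : ℂ) : Tendsto (fun z : ℂ => (z - p) / (z - q)) (cobounded ℂ) (𝓝 1) := by
  have h1 : Tendsto (fun z : ℂ => z - q) (cobounded ℂ) (cobounded ℂ) := by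
    rw [← tendsto_norm_atTop_iff_cobounded]
    exact tendsto_atTop_mono (fun z => norm_sub_norm_le z q)
      (tendsto_atTop_add_const_right _ (-‖q‖) tendsto_norm_cobounded_atTop)
  have h2 : Tendsto (fun z : ℂ => 1 + (q - p) * (z - q)⁻¹) (cobounded ℂ) (𝓝 (1 + (q - p) * 0)) :=
    ((tendsto_inv₀_cobounded.comp h1).const_mul (q - p)).const_add 1
  rw [mul_zero, add_zero] at h2
  refine h2.congr' ?_
  have h3 : ∀ᶠ z in cobounded ℂ, ‖q‖ < ‖z‖ := tendsto_norm_cobounded_atTop.eventually_gt_atTop ‖q‖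
  filter_upwards [h3] with z hz
  have h4 : z - q ≠ 0 := by
    rw [sub_ne_zero]
    rintro rfl
    exact lt_irrefl _ hz
  field_simp
  ring

/-- the inverse of the root -/
theorem root_inv {p q z ρ : ℂ} (hpq : p ≠ q) (hzq : z ≠ q) (h : ρ ^ 2 = (z - p) / (z - q)) :
    ρ ^ 2 - 1 ≠ 0 ∧ q + (q - p) / (ρ ^ 2 - 1) = z := by
  have h1 : z - q ≠ 0 := sub_ne_zero.2 hzq
  have h2 : ρ ^ 2 - 1 = (q - p) / (z - q) := by
    rw [h]
    field_simp
    ring
  have h3 : q - p ≠ 0 := sub_ne_zero.2 hpq.symm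
  refine ⟨?_, ?_⟩
  · rw [h2]
    exact div_ne_zero h3 h1
  · rw [h2]
    field_simp
    ring

theorem root_diff {V : Set ℂ} (hV : IsOpen V) {p q : ℂ} (hpq : p ≠ q) (hqV : q ∉ V) {r : ℂ → ℂ}
    (hr : ContinuousOn r V) (hr0 : ∀ z ∈ V, r z ≠ 0) (hre : ∀ z ∈ V, r z ^ 2 = (z - p) / (z - q)) :
    DifferentiableOn ℂ r V := by
  intro z hz
  apply DifferentiableAt.differentiableWithinAt
  have hzq : ∀ w ∈ V, w ≠ q := fun w hw h => hqV (h ▸ hw)
  obtain ⟨h1, h2⟩ := root_inv hpq (hzq z hz) (hre z hz)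
  have h3 : HasDerivAt (fun ρ : ℂ => q + (q - p) / (ρ ^ 2 - 1)) (-((q - p) * (2 * r z)) / (r z ^ 2 - 1) ^ 2) (r z) := by
    have h4 : HasDerivAt (fun ρ : ℂ => ρ ^ 2 - 1) (2 * r z) (r z) := by
      simpa using (hasDerivAt_pow 2 (r z)).sub_const 1
    have h5 := ((hasDerivAt_const (r z) (q - p)).div h4 h1).const_add q
    refine h5.congr_deriv ?_
    rw [zero_mul, zero_sub]
  have h6 : -((q - p) * (2 * r z)) / (r z ^ 2 - 1) ^ 2 ≠ 0 := by
    apply div_ne_zero
    · rw [neg_ne_zero]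
      exact mul_ne_zero (sub_ne_zero.2 hpq.symm) (mul_ne_zero two_ne_zero (hr0 z hz))
    · exact pow_ne_zero 2 h1
  refine (HasDerivAt.of_local_left_inverse (hr.continuousAt (hV.mem_nhds hz)) h3 h6 ?_).differentiableAt
  filter_upwards [hV.mem_nhds hz] with w hw
  exact (root_inv hpq (hzq w hw) (hre w hw)).2

/-- the sum `r z + r z*` is bounded away from `0` -/
theorem root_low {V : Set ℂ} (hV : IsOpen V) {p q : ℂ} (hpq : p ≠ q) (hqV : q ∉ V) {r : ℂ → ℂ}
    (hr : ContinuousOn r V) (hr0 : ∀ z ∈ V, r z ≠ 0) (hre : ∀ z ∈ V, r z ^ 2 = (z - p) / (z - q)) {z' : ℂ}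
    (hz' : z' ∈ V) : ∃ δ : ℝ, 0 < δ ∧ ∀ z ∈ V, δ ≤ ‖r z + r z'‖ := by
  by_contra hcon
  push Not at hcon
  have hzq : ∀ w ∈ V, w ≠ q := fun w hw h => hqV (h ▸ hw)
  have h1 : ∀ n : ℕ, ∃ z ∈ V, ‖r z + r z'‖ < 1 / ((n : ℝ) + 1) := fun n => hcon _ (by positivity)
  choose x hx hxn using h1
  have h2 : Tendsto (fun n => r (x n) + r z') atTop (𝓝 0) :=
    squeeze_zero_norm (fun n => (hxn n).le) tendsto_one_div_add_atTop_nhds_zero_nat
  have h3 : Tendsto (fun n => r (x n)) atTop (𝓝 (-r z')) := by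
    have := h2.sub_const (r z')
    simpa using this
  have h4 : Tendsto (fun n => q + (q - p) / ((r (x n)) ^ 2 - 1)) atTop (𝓝 (q + (q - p) / ((-r z') ^ 2 - 1))) := by
    apply Tendsto.const_add
    apply Tendsto.div tendsto_const_nhds ((h3.pow 2).sub_const 1)
    rw [neg_sq]
    exact (root_inv hpq (hzq z' hz') (hre z' hz')).1
  rw [neg_sq, (root_inv hpq (hzq z' hz') (hre z' hz')).2] at h4
  have h5 : Tendsto x atTop (𝓝 z') := by
    refine h4.congr fun n => ?_
    exact (root_inv hpq (hzq _ (hx n)) (hre _ (hx n))).2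
  have h6 : Tendsto (fun n => r (x n)) atTop (𝓝 (r z')) := (hr.continuousAt (hV.mem_nhds hz')).tendsto.comp h5
  have h7 := tendsto_nhds_unique h3 h6
  have h8 : r z' = 0 := by
    have : 2 * r z' = 0 := by linear_combination -h7
    simpa using this
  exact hr0 z' hz' h8

theorem no_backward {c b : ℂ} {T : Set ℂ} (hT : IsCompact T) (hTJ : T ⊆ J c) (h0 : (0 : ℂ) ∈ T) (hcT : c ∈ T)
    (hTc : IsPreconnected T) (hsub : f c ⁻¹' T ⊆ T) (hb : f c b = b) (hbJ : b ∈ J c) (hbT : b ∉ T) : False := by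
  classical
  have hTK : T ⊆ K c := hTJ.trans (J_sub_K c)
  have hc0 : c ≠ 0 := c_ne_zero (hTJ h0)
  have hT1K : f c ⁻¹' T ⊆ K c := hsub.trans hTK
  have hT1 : IsCompact (f c ⁻¹' T) :=
    (isCompact_K c).of_isClosed_subset (hT.isClosed.preimage (continuous_f c)) hT1K
  have hT1c : IsPreconnected (f c ⁻¹' T) := preimage_conn0 hTc hcT
  obtain ⟨q, hq⟩ := surj_f c 0
  have hqT : q ∈ f c ⁻¹' T := by
    show f c q ∈ T
    rwa [hq]
  have hpT : (0 : ℂ) ∈ f c ⁻¹' T := by
    show f c 0 ∈ T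
    rwa [f_zero]
  have hpq : (0 : ℂ) ≠ q := by
    rintro rfl
    rw [f_zero] at hq
    exact hc0 hq
  obtain ⟨V, hVdef⟩ : ∃ V, V = Cm c (f c ⁻¹' T) := ⟨_, rfl⟩
  have hV : IsOpen V := by
    rw [hVdef]
    exact cm_open hT1
  have hVc : IsPreconnected V := by
    rw [hVdef]
    exact cm_conn c _
  have hVT : ∀ z ∈ V, z ∉ f c ⁻¹' T := by
    intro z hz
    rw [hVdef] at hz
    exact cm_sub hz
  have hVf : ∀ z ∈ V, f c z ∈ V := by
    intro z hz
    rw [hVdef, ← cm_pre hT hTK] at hz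
    rw [hVdef]
    exact cm_anti hTK hsub hz
  have hKV : (K c)ᶜ ⊆ V := by
    rw [hVdef]
    exact cm_sup hT1K
  have hbV : b ∈ V := by
    rw [hVdef]
    exact cm_J hT1 hT1K hbJ fun h => hbT (hsub h)
  have hVn : ∀ n : ℕ, ∀ z ∈ V, (f c)^[n] z ∈ V := by
    intro n
    induction n with
    | zero => exact fun z hz => hz
    | succ n ih =>
      intro z hz
      rw [Function.iterate_succ_apply']
      exact hVf _ (ih z hz)
  have hqV : q ∉ V := fun h => hVT q h hqT
  have hpV : (0 : ℂ) ∉ V := fun h => hVT 0 h hpT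
  obtain ⟨L, hL, hLe⟩ := exists_log' hT1.isClosed hT1c hpT hqT hV hVc hVT
  obtain ⟨r, hrdef⟩ : ∃ r : ℂ → ℂ, r = fun z => Complex.exp (L z / 2) := ⟨_, rfl⟩
  have hr : ContinuousOn r V := by
    rw [hrdef]
    exact Complex.continuous_exp.comp_continuousOn (hL.div_const 2)
  have hr0 : ∀ z ∈ V, r z ≠ 0 := by
    intro z _
    rw [hrdef]
    exact Complex.exp_ne_zero _
  have hre : ∀ z ∈ V, r z ^ 2 = (z - 0) / (z - q) := by
    intro z hz
    rw [← hLe z hz, hrdef]
    show Complex.exp (L z / 2) ^ 2 = _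
    rw [← Complex.exp_nat_mul]
    congr 1
    push_cast
    ring
  obtain ⟨σ, hσ, hσr⟩ : ∃ σ : ℂ, σ ^ 2 = 1 ∧ Tendsto r (cobounded ℂ) (𝓝 σ) := by
    rw [hrdef]
    obtain ⟨R, hR1, hR2⟩ : ∃ R : ℝ, R0 c ≤ R ∧ ∀ z : ℂ, R < ‖z‖ → ‖(z - 0) / (z - q) - 1‖ < 1 := by
      have h1 := Metric.tendsto_nhds.1 (ratio_far 0 q) 1 one_pos
      rw [← comap_norm_atTop, eventually_comap, eventually_atTop] at h1
      obtain ⟨R, hR⟩ := h1
      refine ⟨max R (R0 c), le_max_right _ _, fun z hz => ?_⟩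
      have h2 := hR ‖z‖ ((le_max_left _ _).trans hz.le) z rfl
      rwa [dist_eq_norm] at h2
    have hfar : {z : ℂ | R < ‖z‖} ⊆ V := fun z hz => hKV (not_mem_K_of_lt (hR1.trans_lt hz))
    refine root_far (u := fun z => (z - 0) / (z - q)) (r := R) (hL.mono hfar) (fun z hz => hLe z (hfar hz)) ?_ hR2
      (ratio_far 0 q)
    refine ContinuousOn.div (by fun_prop) (by fun_prop) fun z hz h => ?_
    rw [sub_eq_zero] at h
    exact hqV (h ▸ hfar hz)
  obtain ⟨z', hz'⟩ : ∃ z', z' ∈ V := ⟨b, hbV⟩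
  obtain ⟨δ, hδ, hlow⟩ := root_low hV hpq hqV hr hr0 hre hz'
  have hne : ∀ z ∈ V, r z + r z' ≠ 0 := fun z hz h => by
    have := hlow z hz
    rw [h, norm_zero] at this
    linarith
  have hrd := root_diff hV hpq hqV hr hr0 hre
  have hhd : DifferentiableOn ℂ (fun z => (r z + r z')⁻¹) V := (hrd.add_const _).inv hne
  have hfd : ∀ n : ℕ, Differentiable ℂ ((f c)^[n]) := by
    intro n
    induction n with
    | zero => exact differentiable_id
    | succ n ih =>
      rw [Function.iterate_succ']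
      have : Differentiable ℂ (f c) := by
        unfold f
        fun_prop
      exact this.comp ih
  let F : ℕ → ℂ → ℂ := fun n z => if z ∈ V then (r ((f c)^[n] z) + r z')⁻¹ else 0
  have hF : ∀ n, ∀ z ∈ V, F n z = (r ((f c)^[n] z) + r z')⁻¹ := fun n z hz => if_pos hz
  have hFb : ∀ n z, ‖F n z‖ ≤ δ⁻¹ := by
    intro n z
    by_cases hz : z ∈ V
    · rw [hF n z hz, norm_inv]
      exact inv_anti₀ hδ (hlow _ (hVn n z hz))
    · show ‖if z ∈ V then (r ((f c)^[n] z) + r z')⁻¹ else 0‖ ≤ _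
      rw [if_neg hz, norm_zero]
      positivity
  have hFd : ∀ n, DifferentiableOn ℂ (F n) V := by
    intro n
    refine DifferentiableOn.congr (f := fun z => (r ((f c)^[n] z) + r z')⁻¹) ?_ (hF n)
    exact hhd.comp (hfd n).differentiableOn fun z hz => hVn n z hz
  obtain ⟨g, k, hk, hg⟩ := Helper39.exists_subseq_tendstoLocallyUniformlyOn hV hFb (fun z hz => by
    obtain ⟨s, hs, hsV⟩ := Metric.isOpen_iff.1 hV z hz
    refine ⟨s / 2, by positivity, 2 * δ⁻¹ / (s / 2), Eventually.of_forall fun j => ?_⟩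
    refine Helper39.lipschitz_of_bounded (by positivity) ((hFd j).mono ?_) fun w _ => hFb j w
    rwa [show 2 * (s / 2) = s by ring])
  have hgd : DifferentiableOn ℂ g V := hg.differentiableOn (Eventually.of_forall fun j => hFd (k j)) hV
  have hσ0 : σ + r z' ≠ 0 := by
    intro h
    have h1 : Tendsto (fun z => ‖r z + r z'‖) (cobounded ℂ) (𝓝 ‖σ + r z'‖) := (hσr.add_const _).norm
    rw [h, norm_zero] at h1
    have h2 : ∀ᶠ z in cobounded ℂ, δ ≤ ‖r z + r z'‖ := by
      have h3 : ∀ᶠ z in cobounded ℂ, R0 c < ‖z‖ := tendsto_norm_cobounded_atTop.eventually_gt_atTop _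
      filter_upwards [h3] with z hz
      exact hlow z (hKV (not_mem_K_of_lt hz))
    exact absurd (ge_of_tendsto h1 h2) (not_le.2 hδ)
  have hgK : ∀ z, z ∉ K c → g z = (σ + r z')⁻¹ := by
    intro z hz
    have h1 : Tendsto (fun n => (f c)^[n] z) atTop (cobounded ℂ) := by
      rw [← tendsto_norm_atTop_iff_cobounded, Filter.tendsto_atTop]
      intro M
      obtain ⟨N, hN⟩ := escape (c := c) hz M
      rw [eventually_atTop]
      exact ⟨N, fun n hn => (hN.self_of_nhds n hn).le⟩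
    have h2 : Tendsto (fun n => (r ((f c)^[n] z) + r z')⁻¹) atTop (𝓝 (σ + r z')⁻¹) :=
      ((hσr.comp h1).add_const _).inv₀ hσ0
    have h3 : Tendsto (fun j => F (k j) z) atTop (𝓝 (g z)) := hg.tendsto_at (hKV hz)
    have h4 : Tendsto (fun j => F (k j) z) atTop (𝓝 (σ + r z')⁻¹) :=
      (h2.comp hk.tendsto_atTop).congr fun j => (hF (k j) z (hKV hz)).symm
    exact tendsto_nhds_unique h3 h4
  have hconst : EqOn g (fun _ => (σ + r z')⁻¹) V := by
    have hfp : ((R0 c : ℂ) + 1) ∈ (K c)ᶜ := far_point c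
    refine (hgd.analyticOnNhd hV).eqOn_of_preconnected_of_eventuallyEq analyticOnNhd_const hVc (hKV hfp) ?_
    filter_upwards [(isClosed_K c).isOpen_compl.mem_nhds hfp] with z hz
    exact hgK z hz
  have h1 : g b = (r b + r z')⁻¹ := by
    have h3 : Tendsto (fun j => F (k j) b) atTop (𝓝 (g b)) := hg.tendsto_at hbV
    have h4 : ∀ j, F (k j) b = (r b + r z')⁻¹ := by
      intro j
      rw [hF _ b hbV, Function.iterate_fixed hb]
    simp only [h4] at h3
    exact (tendsto_nhds_unique h3 tendsto_const_nhds)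
  have h2 : (r b + r z')⁻¹ = (σ + r z')⁻¹ := h1.symm.trans (hconst hbV)
  have h3 : r b = σ := by
    have := inv_injective h2
    exact add_right_cancel this
  have h4 := hre b hbV
  rw [h3, hσ] at h4
  have h5 : b - q ≠ 0 := by
    rw [sub_ne_zero]
    rintro rfl
    exact hqV hbV
  rw [eq_div_iff h5] at h4
  apply hpq
  linear_combination h4

end Pool.Agent.Helper96.AD
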