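import Pool.Agent.Helper96.AD.Cases
import Pool.Agent.Helper96.AD.NB
import Pool.Agent.Helper96.AD.Core
import Pool.Agent.Helper41.AD.Conv

/-!
# The Julia set is indecomposable iff it is irreducible between the critical point and the critical value (MP_a03adf)
-/

set_option autoImplicit false

open Set Topology Metric Bornology Filter Pool.Agent.Helper66.QJ

namespace Pool.Agent.Helper96.AD

variable {c : ℂ}

/-- a proper subcontinuum containing `0` and `c` makes `J` decomposable, if every such set which is forward invariant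
contains an invariant continuum through `0` -/
theorem dec_of_T {T : Set ℂ} (hT : IsCompact T) (hTc : IsPreconnected T) (hTJ : T ⊆ J c) (hTn : T ≠ J c)
    (h0 : (0 : ℂ) ∈ T) (hcT : c ∈ T)
    (hrec : f c '' T ⊆ T → ∃ X ⊆ T, IsCompact X ∧ IsPreconnected X ∧ (0 : ℂ) ∈ X ∧ f c '' X = X) : Dec (J c) := by
  have hTK : T ⊆ K c := hTJ.trans (J_sub_K c)
  have h0K : (0 : ℂ) ∈ K c := hTK h0
  obtain ⟨b, R, hb, hbJ, hR, hRc, hRu, hbR, hRJ⟩ := external h0K
  by_cases hbT : b ∈ T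
  · exact core (isCompact_J c) (isPreconnected_J h0K) (fun z hz => neg_mem_J hz) hT hTc hTJ hTn h0 hR hRc hRu
      (hRJ.trans (singleton_subset_iff.2 hbT)) ⟨b, hbR, hbT⟩
  by_cases hf : f c '' T ⊆ T
  · obtain ⟨X, hXT, hX, hXc, h0X, hfX⟩ := hrec hf
    exact dec_of_inv hX hXc (hXT.trans hTJ) h0X hfX hb hbJ fun h => hbT (hXT h)
  · obtain ⟨_, ⟨x, hx, rfl⟩, hfx⟩ := Set.not_subset.1 hf
    refine dec_of_diff hT hTc hTJ h0 hcT hb hbJ hbT ⟨x, hx, hfx⟩ ?_
    by_contra hy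
    rw [Set.not_nonempty_iff_eq_empty, Set.sdiff_eq_empty] at hy
    exact no_backward hT hTJ h0 hcT hTc hy hb hbJ hbT

/-- the main theorem -/
theorem dec_iff_common (h0 : (0 : ℂ) ∈ J c) (hrec : ∀ n : ℕ, (0 : ℂ) ∈ closure ((fun k => (f c)^[k] 0) '' Ioi n)) :
    Dec (J c) ↔ ∃ T : Set ℂ, IsCompact T ∧ IsPreconnected T ∧ T ⊆ J c ∧ T ≠ J c ∧ (0 : ℂ) ∈ T ∧ c ∈ T := by
  refine ⟨fun hD => Pool.Agent.Helper41.AD.exists_T h0 hD, ?_⟩
  rintro ⟨T, hT, hTc, hTJ, hTn, h0T, hcT⟩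
  exact dec_of_T hT hTc hTJ hTn h0T hcT fun hf => exists_core hT hTc h0T hf hrec

end Pool.Agent.Helper96.AD
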